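import Pool.Agent.Q69.Murre.Main

/-!
# Murre's conjecture (C): the step `F^0` in the middle dimension of self-products suffices

`𝒱` is a class of smooth projective geometrically irreducible varieties over the field `k` closed
under products (for example all of them), `C` the Chow groups with rational coefficients (in the
form of their formal properties, `IsChowProj`) and `H` a Weil cohomology theory (`IsWeilProj`).

The conjecture (C) for all varieties of the class is shown to be equivalent to each of the following:

* for all `X`, the single subgroup `F^0 CH^(dim X)(X × X)` of the middle Chow group of `X × X` does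
  not depend on the Chow-Kunneth decomposition of `X × X`;
* for all `X` and all Chow-Kunneth decompositions `π`, `π'` of `X`, the subgroup
  `F^0 CH^(dim X)(X × X)` attached to the product of the transpose of `π` and `π'` is
  `CH^(dim X)(X × X)`;
* the filtrations are functorial: for all Chow-Kunneth decompositions of `X` and of `Z`, every
  correspondence from `X` to `Z`, of any degree, maps `F^n CH^i(X)` to `F^n CH^(i')(Z)`.

The existence of Chow-Kunneth decompositions is not assumed.
-/

open CategoryTheory AlgebraicGeometry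

set_option autoImplicit false

universe u v w

namespace Pool.Agent.Results.MP_10f4af_ag.MiddleStepZero

open Pool.Agent.H914 Pool.Agent.W492.BB Pool.Agent.TH133 Pool.Agent.Q69.Murre

/-- Murre's conjecture (C) for all varieties is equivalent to the independence of the single step
`F^0 CH^(dim X)(X × X)` for all `X`, and to the functoriality of the filtrations with respect to all
correspondences. -/
theorem result {k : Type u} [Field k] {𝒱 : VarClass k} (C : TheoryData.{u, v, 0} 𝒱 ℚ)
    [IsChowProj C] {K : Type w} [Field K] (H : WeilTheoryData.{u, v, w} C K) [IsWeilProj H] :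
    [∀ X : 𝒱.Obj, MurreC H X,
      ∀ (X : 𝒱.Obj) (ϖ ϖ' : ℕ → C.A ((X.prod X).prod (X.prod X))),
        IsCK H (X.prod X) ϖ → IsCK H (X.prod X) ϖ' → ckFil C ϖ X.dim 0 = ckFil C ϖ' X.dim 0,
      ∀ (X : 𝒱.Obj) (π π' : ℕ → C.A (X.prod X)), IsCK H X π → IsCK H X π' →
        ckFil C (selfProd C π π') X.dim 0 = C.gr (X.prod X) X.dim,
      ∀ (X Z : 𝒱.Obj) (π : ℕ → C.A (X.prod X)) (ρ : ℕ → C.A (Z.prod Z)), IsCK H X π →
        IsCK H Z ρ → ∀ (i i' n : ℕ) (Γ : C.A (X.prod Z)), C.Deg (X.dim + i' - i) Γ →
          ∀ x ∈ ckFil C π i n, C.act Γ x ∈ ckFil C ρ i' n].TFAE := by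
  tfae_have 1 → 2 := fun h X ϖ ϖ' hϖ hϖ' => h (X.prod X) ϖ ϖ' hϖ hϖ' X.dim 0
  tfae_have 2 → 3 := fun h X π π' hπ hπ' =>
    murreB0_of_C0_at (H := H) (h X) (hπ.dual.prod hπ')
  tfae_have 3 → 4 := by
    intro h X Z π ρ hπ hρ i i' n Γ hΓ x hx
    refine functorial_of_B0 (fun Y => ?_) hπ hρ hΓ hx
    exact murreB0_of_NR' fun π hπ => NR_of_middle hπ hπ (h Y π π hπ hπ)
  tfae_have 4 → 1 := by
    intro h X π π' hπ hπ' i n
    have key : ∀ π π', IsCK H X π → IsCK H X π' → ckFil C π i n ≤ ckFil C π' i n := by
      intro π π' hπ hπ' x hx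
      have hd : C.Deg ((X.dim : ℤ) + i - i) (Pool.Agent.W550.Corr.dg C X) := by
        have e : (X.dim : ℤ) + i - i = X.dim := by ring
        rw [e]
        exact dg_mem C X
      have h1 := h X X π π' hπ hπ' i i n _ hd x hx
      rwa [Pool.Agent.W550.Corr.act_dg] at h1
    exact le_antisymm (key π π' hπ hπ') (key π' π hπ' hπ)
  tfae_finish

end Pool.Agent.Results.MP_10f4af_ag.MiddleStepZero
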