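import Pool.Agent.Q145.JA.CK

/-!
# Independence of the filtration on zero-cycles: natural decompositions of products of Jacobians

`k` is an algebraically closed field of characteristic zero, `J_j`, `j` in a finite set, are the
Jacobians of arbitrary smooth projective curves over `k` and `X = ∏ J_j ^ (N j)`, `d = dim X`.  A
natural correspondence is a linear combination of the graphs of self-maps of `X` given by integral
matrices and translations.

Theorem. Let `π_0, ..., π_(2 d)` be natural correspondences which act on `CH_0(X)` as orthogonal
idempotents with sum `1` and on the holomorphic forms as a Chow-Künneth decomposition (for example a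
Chow-Künneth decomposition of `X`).  Then `F^m CH_0(X) = (π_(2 d - m) + ... + π_0)_* CH_0(X)` is, for
all `m`, the `m`-th power of the ideal of the zero-cycles of degree zero for the Pontryagin product.
So the filtration is the same for all these decompositions.
-/

set_option autoImplicit false

namespace Pool.Agent.Results.MP_10f4af_ag.NaturalDecompositions

open FF Pool.Agent.Q70.CH Pool.Agent.Q145.JA

theorem result {k : Type} [Field k] [CharZero k] [IsAlgClosed k] {J : Type} [Fintype J]
    {K : J → Type} [∀ j, Field (K j)] [∀ j, Algebra k (K j)] [∀ j, IsFF k (K j)] {g : J → ℕ}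
    (hg : ∀ j, IsGenus k (K j) (g j)) {N : J → Type} [∀ j, Fintype (N j)] {d : ℕ}
    (hd : ∑ j, g j * Fintype.card (N j) = d) :
    (∀ π : ℕ → (AMap k K N N →₀ ℚ), NatDec g N d π → ∀ m, filDec d π m = filJ k K N m) ∧
    ∀ π π' : ℕ → (AMap k K N N →₀ ℚ), NatDec g N d π → NatDec g N d π' →
      ∀ m, filDec d π m = filDec d π' m := by
  refine ⟨fun π h m => h.eq_filJ hg hd m, fun π π' h h' m => ?_⟩
  rw [h.eq_filJ hg hd, h'.eq_filJ hg hd]

end Pool.Agent.Results.MP_10f4af_ag.NaturalDecompositions
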