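import Pool.Agent.Q69.Cut.MainC

/-!
# Murre's conjectures (A) and (C): one cut for every variety suffices

`𝒱` is a class of smooth projective geometrically irreducible varieties over the field `k` closed
under products (for example all of them), `C` the Chow groups with rational coefficients (in the
form of their formal properties, `IsChowProj`) and `H` a Weil cohomology theory (`IsWeilProj`).

A lower half of `X`, of dimension `d`, is an idempotent `e ∈ CH^d(X × X)` which acts on the
cohomology `H(X)` as the projector onto `⊕_(m < d) H^m(X)`. The theorem: every variety has a
Chow-Kunneth decomposition and the induced filtrations do not depend on it (Murre's conjectures (A)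
and (C)) if and only if every variety has a lower half and `e ∘ e' = e'` for any two lower halves
`e`, `e'` of the same variety, that is, the right ideal `e ∘ CH^d(X × X)` depends only on `X`. It is
also equivalent that every `X` has a lower half with `(1 - e) ∘ g ∘ e = 0` for all
`g ∈ CH^d(X × X)`, and that homologically trivial idempotents vanish.

So one cut of the motive, in the middle, is enough: the other cuts of `h(X)` are obtained from the
cut of `h(X × X)` and from its transpose, restricted to the direct summands `h(X)(-l)`, and the
condition makes them compatible with each other.
-/

open CategoryTheory AlgebraicGeometry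

set_option autoImplicit false

universe u v w

namespace Pool.Agent.Results.MP_10f4af_ag.OneCutPerVariety

open Pool.Agent.H914 Pool.Agent.W492.BB Pool.Agent.TH133 Pool.Agent.Q69.Cut

/-- Murre's conjectures (A) and (C) for all varieties are equivalent to the existence, and the
uniqueness up to `e ∘ e' = e'`, of a lower half of every variety; and to the existence of triangular
lower halves together with the vanishing of homologically trivial idempotents. -/
theorem result {k : Type u} [Field k] {𝒱 : VarClass k} (C : TheoryData.{u, v, 0} 𝒱 ℚ)
    [IsChowProj C] {K : Type w} [Field K] (H : WeilTheoryData.{u, v, w} C K) [IsWeilProj H] :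
    [(∀ X : 𝒱.Obj, ∃ π : ℕ → C.A (X.prod X), IsCK H X π) ∧ ∀ X : 𝒱.Obj, MurreC H X,
      ∀ X : 𝒱.Obj, (∃ e : C.A (X.prod X), IsHalf H X e) ∧
        ∀ e e' : C.A (X.prod X), IsHalf H X e → IsHalf H X e' → C.comp e' e = e',
      ∀ X : 𝒱.Obj, (∃ e : C.A (X.prod X), IsHalf H X e ∧ Triangular C X e) ∧
        NoPhantom H X].TFAE :=
  murreC_tfae C H

end Pool.Agent.Results.MP_10f4af_ag.OneCutPerVariety
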